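import Mathlib
import Pool.Agent.R489.SQ.Nested
import Pool.Agent.R489.SQ.Final
import Pool.Agent.R141.SQ.W1
import Pool.Agent.R141.SQ.W2
import Pool.Agent.R68.SQ.N1
import Pool.Agent.R193.SQ.N2

/-!
# Proper colourings of planar graphs with square colour counts (MP_115f12_co)

There is a constant `c` such that every planar graph has a square colouring with `c` colours; more
generally, for every `t` there is a constant `c` such that every finite graph without a complete
minor on `t` vertices has a square colouring with `c` colours.
-/

set_option autoImplicit false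

namespace Pool.Agent.Results.MP_115f12_co.SquareColouring

/-- `H` is a minor of `G`: there are pairwise disjoint connected branch sets in `G`, one for every
vertex of `H`, such that adjacent vertices of `H` have branch sets joined by an edge of `G`. -/
def IsMinor {W V : Type} (H : SimpleGraph W) (G : SimpleGraph V) : Prop :=
  ∃ B : W → Set V, (∀ i, (G.induce (B i)).Connected) ∧ (∀ i j, i ≠ j → Disjoint (B i) (B j)) ∧
    ∀ i j, H.Adj i j → ∃ x ∈ B i, ∃ y ∈ B j, G.Adj x y

/-- Planarity, in the form of Wagner's characterisation: neither the complete graph on five vertices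
nor the complete bipartite graph with three vertices on both sides is a minor. -/
def IsPlanar {V : Type} (G : SimpleGraph V) : Prop :=
  ¬ IsMinor (⊤ : SimpleGraph (Fin 5)) G ∧ ¬ IsMinor (completeBipartiteGraph (Fin 3) (Fin 3)) G

/-- `φ` is a square colouring with `c` colours: it is proper and around every vertex every colour
occurs a perfect square number of times (possibly `0`) among the neighbours. -/
def IsSquareColouring {V : Type} (G : SimpleGraph V) (c : ℕ) (φ : V → Fin c) : Prop :=
  (∀ u w, G.Adj u w → φ u ≠ φ w) ∧ ∀ (v : V) (i : Fin c), IsSquare {w | G.Adj v w ∧ φ w = i}.ncard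

/-- There is a constant `c` such that every finite planar graph has a square colouring with `c`
colours. More generally, for every `t` there is a constant `c` such that every finite graph without
a complete minor on `t` vertices has a square colouring with `c` colours. -/
theorem result :
    (∃ c : ℕ, ∀ (V : Type) [Finite V] (G : SimpleGraph V), IsPlanar G →
      ∃ φ : V → Fin c, IsSquareColouring G c φ) ∧
    ∀ t : ℕ, ∃ c : ℕ, ∀ (V : Type) [Finite V] (G : SimpleGraph V),
      ¬ IsMinor (⊤ : SimpleGraph (Fin t)) G → ∃ φ : V → Fin c, IsSquareColouring G c φ := by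
  have h : Pool.Agent.R489.SQ.StmtFinal :=
    Pool.Agent.R489.SQ.final_of (Pool.Agent.R141.SQW2.w2 Pool.Agent.R141.SQW.w1)
      (Pool.Agent.R489.SQ.stmtN_of (Pool.Agent.R193.SQ.n2 Pool.Agent.R68.SQ.n1))
  have h2 : ∀ t : ℕ, ∃ c : ℕ, ∀ (V : Type) [Finite V] (G : SimpleGraph V),
      ¬ IsMinor (⊤ : SimpleGraph (Fin t)) G → ∃ φ : V → Fin c, IsSquareColouring G c φ := h
  refine ⟨?_, h2⟩
  obtain ⟨c, hc⟩ := h2 5
  exact ⟨c, fun V _ G hG => hc V G hG.1⟩

end Pool.Agent.Results.MP_115f12_co.SquareColouring
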